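import Pool.Agent.L0h45.AV.Stm
import Pool.Agent.L0h90.AR.Pair
import Pool.Agent.L0h95.AR.MW
import Pool.Agent.Q286.EQ.MW

/-!
# Project AV, module RNK: the rank and the tuples
-/

set_option autoImplicit false
set_option linter.all false

open Finset IsDedekindDomain NumberField Polynomial
open scoped Classical

namespace Pool.Agent.L0h55.AV

open Pool.Agent.N874.PP (Tup chA chB gq tau Ev)
open Pool.Agent.N922.PQ (dsc IsCub vec)
open Pool.Agent.L0h45.AR (crv cub Alg th)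
open Pool.Agent.L0h45.AV

theorem odd_b {a b : ℤ} (ha : Odd a) (hsq : Squarefree (dsc a b)) : Odd b := by
  by_contra hb
  rw [Int.not_odd_iff_even] at hb
  obtain ⟨k, rfl⟩ := hb
  have h1 : (2 : ℤ) * 2 ∣ dsc a (k + k) := ⟨a ^ 3 + 27 * k ^ 2, by unfold dsc; ring⟩
  have h2 := hsq 2 h1
  rw [Int.isUnit_iff] at h2
  omega

theorem no_root {a b : ℤ} (ha : Odd a) (hb : Odd b) (t : ℚ) : t ^ 3 + a * t + b ≠ 0 := by
  intro h
  have h1 : IsIntegral ℤ t := by
    refine ⟨X ^ 3 + C a * X + C b, by monicity!, ?_⟩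
    simp only [eval₂_add, eval₂_mul, eval₂_pow, eval₂_X, eval₂_C]
    simpa using h
  obtain ⟨z, rfl⟩ := IsIntegrallyClosed.isIntegral_iff.mp h1
  have h2 : z ^ 3 + a * z + b = 0 := by
    have h3 : ((z ^ 3 + a * z + b : ℤ) : ℚ) = 0 := by
      push_cast
      simpa using h
    exact_mod_cast h3
  obtain ⟨k, rfl⟩ := ha
  obtain ⟨l, rfl⟩ := hb
  rcases Int.even_or_odd z with ⟨m, rfl⟩ | ⟨m, rfl⟩
  · ring_nf at h2
    omega
  · ring_nf at h2
    omega

theorem cub_monic (a b : ℤ) : (cub a b).Monic := by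
  unfold cub
  monicity!

theorem cub_deg (a b : ℤ) : (cub a b).natDegree = 3 := by
  unfold cub
  compute_degree!

theorem cub_irr {a b : ℤ} (ha : Odd a) (hb : Odd b) : Irreducible (cub a b) := by
  rw [Monic.irreducible_iff_roots_eq_zero_of_degree_le_three (cub_monic a b)
    (by rw [cub_deg]; norm_num) (by rw [cub_deg])]
  rw [Multiset.eq_zero_iff_forall_notMem]
  intro t ht
  have ht' := (mem_roots (cub_monic a b).ne_zero).1 ht
  apply no_root ha hb t
  unfold cub at ht'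
  simpa [IsRoot.def] using ht'

/-- The cubic field. -/
theorem exists_cub {a b : ℤ} (h : Irreducible (cub a b)) :
    ∃ (L : Type) (_ : Field L) (_ : NumberField L) (θ : L), IsCub a b θ ∧
      ∃ φ : L →+* Alg a b, φ θ = th a b ∧ ∀ q : ℚ, φ (q : L) = AdjoinRoot.of (cub a b) q := by
  haveI hf : Fact (Irreducible (cub a b)) := ⟨h⟩
  have hm := cub_monic a b
  have hd := cub_deg a b
  have hC : ∀ q : ℚ, AdjoinRoot.mk (cub a b) (C q) = (q : AdjoinRoot (cub a b)) := by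
    intro q
    exact map_ratCast ((AdjoinRoot.mk (cub a b)).comp (C : ℚ →+* ℚ[X])) q
  refine ⟨AdjoinRoot (cub a b), inferInstance, inferInstance, AdjoinRoot.root (cub a b),
    ⟨?_, ?_, ?_⟩, RingHom.id _, rfl, ?_⟩
  · have h0 := AdjoinRoot.eval₂_root (cub a b)
    rw [show (cub a b) = X ^ 3 + C (a : ℚ) * X + C (b : ℚ) from rfl] at h0
    simp only [eval₂_add, eval₂_mul, eval₂_pow, eval₂_X, eval₂_C] at h0
    rw [map_intCast, map_intCast] at h0
    exact h0
  · have hr : @Module.finrank ℚ (AdjoinRoot (cub a b)) _ _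
        (AdjoinRoot.instAlgebra (cub a b)).toModule = 3 := by
      rw [(AdjoinRoot.powerBasis hm.ne_zero).finrank, AdjoinRoot.powerBasis_dim, hd]
    convert hr using 2
  · intro x
    obtain ⟨p, rfl⟩ := AdjoinRoot.mk_surjective x
    have h1 : AdjoinRoot.mk (cub a b) p = AdjoinRoot.mk (cub a b) (p %ₘ cub a b) := by
      rw [AdjoinRoot.mk_eq_mk, modByMonic_eq_sub_mul_div p (cub a b)]
      rw [sub_sub_cancel]
      exact dvd_mul_right _ _
    have hd' : (p %ₘ cub a b).natDegree < 3 := by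
      rw [← hd]
      exact natDegree_modByMonic_lt p hm (by
        intro h
        rw [h] at hd
        simp at hd)
    refine ⟨(p %ₘ cub a b).coeff 0, (p %ₘ cub a b).coeff 1, (p %ₘ cub a b).coeff 2, ?_⟩
    rw [h1]
    conv_lhs => rw [(p %ₘ cub a b).as_sum_range_C_mul_X_pow' hd']
    rw [Finset.sum_range_succ, Finset.sum_range_succ, Finset.sum_range_one, map_add, map_add,
      map_mul, map_mul, map_mul, hC, hC, hC, map_pow, map_pow, map_pow, pow_zero, pow_one, mul_one,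
      AdjoinRoot.mk_X]
  · intro q
    exact (hC q).symm

/-- the norm of `x - θ` -/
theorem norm_sub {L : Type} [Field L] [NumberField L] {a b : ℤ} {θ : L} (h : IsCub a b θ) (x : ℚ) :
    Algebra.norm ℚ ((x : L) - θ) = x ^ 3 + a * x + b := by
  have hr : ∀ (r s t : ℚ) (i : Fin 3),
      h.basis.repr ((r : L) + (s : L) * θ + (t : L) * θ ^ 2) i = ![r, s, t] i := by
    intro r s t i
    have e : (r : L) + (s : L) * θ + (t : L) * θ ^ 2 = ∑ i, ![r, s, t] i • h.basis i := by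
      simp only [Fin.sum_univ_three, h.basis_apply, vec, Matrix.cons_val_zero, Matrix.cons_val_one,
        Matrix.cons_val, Rat.smul_def, mul_one]
    rw [e, Module.Basis.repr_sum_self]
  have e0 : ((x : L) - θ) * 1 = (x : L) + ((-1 : ℚ) : L) * θ + ((0 : ℚ) : L) * θ ^ 2 := by
    push_cast
    ring
  have e1 : ((x : L) - θ) * θ = ((0 : ℚ) : L) + (x : L) * θ + ((-1 : ℚ) : L) * θ ^ 2 := by
    push_cast
    ring
  have e2 : ((x : L) - θ) * θ ^ 2 = (((b : ℤ) : ℚ) : L) + (((a : ℤ) : ℚ) : L) * θ + (x : L) * θ ^ 2 := by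
    push_cast
    linear_combination (-1) * h.root
  rw [Algebra.norm_eq_matrix_det h.basis, Matrix.det_fin_three]
  simp only [Algebra.leftMulMatrix_eq_repr_mul, h.basis_apply, vec, Matrix.cons_val_zero,
    Matrix.cons_val_one, Matrix.cons_val]
  rw [e0, e1, e2]
  simp only [hr, Matrix.cons_val_zero, Matrix.cons_val_one, Matrix.cons_val]
  ring

theorem crv_eq {a b : ℤ} {x y : ℚ} (h : (crv a b).toAffine.Nonsingular x y) :
    y ^ 2 = x ^ 3 + a * x + b := by
  have h1 := (WeierstrassCurve.Affine.equation_iff _ _).mp h.1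
  simp only [crv] at h1
  linear_combination h1

/-- **RNK** -/
theorem t_RNK : S_RDX → S_EVP → S_REX → S_RLM → S_RLI → S_RLC → S_SQN → S_SL8 → S_RNK := by
  intro hRDX hEVP hREX hRLM hRLI hRLC hSQN hSL8 a b ha hao hsq
  have hbo := odd_b hao hsq
  have hΔ : 4 * a ^ 3 + 27 * b ^ 2 ≠ 0 := hsq.ne_zero
  obtain ⟨L, iF, iN, θ, hc, φ, hφ, hφq⟩ := exists_cub (cub_irr hao hbo)
  have hFG : AddGroup.FG (crv a b).toAffine.Point := by
    apply Pool.Agent.Q286.EQ.mordell_weil ℚ (crv a b)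
    intro h
    apply hΔ
    have h1 : (crv a b).Δ = -16 * ((4 * a ^ 3 + 27 * b ^ 2 : ℤ) : ℚ) := by
      simp only [crv, WeierstrassCurve.Δ, WeierstrassCurve.b₂, WeierstrassCurve.b₄,
        WeierstrassCurve.b₆, WeierstrassCurve.b₈]
      push_cast
      ring
    rw [h1] at h
    have h2 : ((4 * a ^ 3 + 27 * b ^ 2 : ℤ) : ℚ) = 0 := by linarith
    exact_mod_cast h2
  obtain ⟨S₀, hS₀, hinc⟩ := Pool.Agent.L0h95.AR.mw (crv a b).toAffine.Point hFG
  -- the points which are doubles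
  have hdb : (S₀.filter (fun P => ∃ Q, Q + Q = P)).card ≤ 1 := by
    rw [card_le_one]
    intro P hP P' hP'
    rw [mem_filter] at hP hP'
    obtain ⟨hP1, Q, hQ⟩ := hP
    obtain ⟨hP1', Q', hQ'⟩ := hP'
    by_contra hne
    apply hinc P hP1 P' hP1' hne (Q - Q')
    rw [← hQ, ← hQ']
    abel
  obtain ⟨S₁, hS₁⟩ : ∃ S₁, S₁ = S₀.filter (fun P => ¬ (∃ Q, Q + Q = P)) := ⟨_, rfl⟩
  have hS₁c : S₀.card ≤ S₁.card + 1 := by
    have h1 := card_filter_add_card_filter_not (s := S₀) (fun P => ∃ Q, Q + Q = P)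
    rw [← hS₁] at h1
    omega
  -- squares
  have hsqr : ∀ z : L, IsSquare z → IsSquare (φ z) := fun z hz => hz.map φ
  -- the tuples
  have hform : ∀ P ∈ S₁, ∃ B : Tup ℤ, ∃ (x y : ℚ) (h : (crv a b).toAffine.Nonsingular x y),
      P = .some x y h ∧ y ≠ 0 ∧ ((x : L) - θ) ≠ 0 ∧ Rel hc ((x : L) - θ) B ∧ Red B ∧ Sol8 B ∧
        B.x ≠ 0 ∧ chA B = a ∧ chB B = b := by
    intro P hP
    rw [hS₁, mem_filter] at hP
    obtain ⟨-, h2⟩ := hP
    rcases P with _ | ⟨x, y, h⟩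
    · exact absurd ⟨0, add_zero 0⟩ h2
    · have he := crv_eq h
      have hy : y ≠ 0 := by
        rintro rfl
        apply no_root hao hbo x
        rw [← he]
        norm_num
      have hN : Algebra.norm ℚ ((x : L) - θ) = y ^ 2 := by rw [norm_sub hc, he]
      have hα : ((x : L) - θ) ≠ 0 := by
        intro h0
        rw [h0, Algebra.norm_zero] at hN
        exact hy (pow_eq_zero_iff (two_ne_zero) |>.1 hN.symm)
      have hNs : IsSquare (Algebra.norm ℚ ((x : L) - θ)) := ⟨y, by rw [hN, sq]⟩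
      have hns : ¬ IsSquare ((x : L) - θ) := by
        intro hs
        have h3 := hsqr _ hs
        rw [map_sub, hφ, hφq] at h3
        obtain ⟨Q, hQ⟩ := Pool.Agent.L0h90.AR.half a b hΔ x y h h3
        exact h2 ⟨Q, hQ⟩
      obtain ⟨B₀, hB₀⟩ := hREX L (𝓞 L) a b θ hc ha hsq ((x : L) - θ) hα hNs
        (fun 𝔓 => hEVP L (𝓞 L) a b θ hc hsq x y he 𝔓)
      obtain ⟨B, hB, hred⟩ := hRDX (fun B => Rel hc ((x : L) - θ) B)
        (fun B hB => hRLM L a b θ hc _ B hB) (fun B hB => by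
          obtain ⟨h3, -, h5⟩ := hRLC L a b θ hc _ B hα hB
          exact ⟨h5 hNs hns, by rw [h3]; exact ha⟩) B₀ hB₀
      obtain ⟨h3, h4, h5⟩ := hRLC L a b θ hc _ B hα hB
      obtain ⟨s, t, n, hst, hg⟩ := hSQN L a b θ hc x B hB
      exact ⟨B, x, y, h, rfl, hy, hα, hB, hred, hSL8 B s t n (by rw [h3]; exact hao)
        (by rw [h4]; exact hbo) hst hg, h5 hNs hns, h3, h4⟩
  haveI : Nonempty (Tup ℤ) := ⟨⟨0, 0, 0, 0, 0⟩⟩
  choose! Fm hFm using hform
  have hkey : ∀ P ∈ S₁, ∀ P' ∈ S₁, Fm P = Fm P' → P = P' := by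
    intro P hP P' hP' he
    obtain ⟨x, y, h, rfl, hy, hα, hR, -, -, -, -, -⟩ := hFm P hP
    obtain ⟨x', y', h', rfl, hy', hα', hR', -, -, -, -, -⟩ := hFm P' hP'
    rw [← he] at hR'
    by_contra hne
    have h1 := hsqr _ (hRLI L a b θ hc _ _ _ hα hα' hR hR')
    rw [map_mul, map_sub, map_sub, hφ, hφq, hφq] at h1
    obtain ⟨Q, hQ⟩ := Pool.Agent.L0h90.AR.pair a b hΔ x y x' y' h h' hy hy' h1
    rw [hS₁, mem_filter] at hP hP'
    exact hinc _ hP.1 _ hP'.1 hne Q hQ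
  refine ⟨S₁.image Fm, ?_, ?_⟩
  · rw [card_image_of_injOn, ← hS₀]
    · exact hS₁c
    · intro P hP P' hP' h
      rw [mem_coe] at hP hP'
      exact hkey P hP P' hP' h
  · intro B hB
    rw [mem_image] at hB
    obtain ⟨P, hP, rfl⟩ := hB
    obtain ⟨x, y, h, -, hy, hα, hR, hred, hsol, hx, hA, hB'⟩ := hFm P hP
    exact ⟨hx, hA, hB', hred, hsol⟩

end Pool.Agent.L0h55.AV
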