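import Pool.Agent.L0h45.AV.Stm2
import Pool.Agent.L0h24.AV.SL8
import Pool.Agent.N803.PQ.Iso2

/-!
# Project AV, module S8S: the condition at `2` on the tuple
-/

set_option autoImplicit false
set_option linter.all false

open Polynomial
open scoped Classical

namespace Pool.Agent.L0h55.AV

open Pool.Agent.N874.PP (Tup chA chB gq tau Ev)
open Pool.Agent.N922.PQ (dsc IsCub JJ Loc2 PL2)
open Pool.Agent.N803.PQ (fp fp_irr fp_ne noroot PP pl2_iff root_eq bas bas_apply emb emb_gen emb_mk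
  basis_pow)
open Pool.Agent.L0h24.AV (odd_sq sq_par fin_case)
open Pool.Agent.L0h45.AV

/-! ### The congruence modulo 32 -/

theorem sl8_mod (B : Tup ℤ) (s t n r : ℤ) (hst : Odd s ∨ Odd t)
    (h : gh B s t = -n ^ 2 + 32 * r) : Sol8 B := by
  have hgh : gh B s t = 4 * B.x * s ^ 4 - 8 * B.y * s ^ 3 * t - 12 * B.c * s ^ 2 * t ^ 2 +
    4 * B.z * s * t ^ 3 + B.w * t ^ 4 := rfl
  rw [hgh] at h
  rcases Int.even_or_odd t with ht | ht
  · -- `t` even, `s` odd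
    have hs : Odd s := hst.resolve_right (by rwa [Int.not_odd_iff_even])
    obtain ⟨u, hu⟩ := ht
    have hu' : t = 2 * u := by rw [hu]; ring
    obtain ⟨m, hm⟩ := odd_sq s hs
    obtain ⟨k, hk⟩ := hs
    obtain ⟨e, he⟩ := sq_par u
    have hn : Even n := by
      have h1 : Even (n ^ 2) := by
        refine ⟨-(2 * B.x * s ^ 4 - 4 * B.y * s ^ 3 * t - 6 * B.c * s ^ 2 * t ^ 2 + 2 * B.z * s * t ^ 3 +
          8 * B.w * u ^ 4) + 16 * r, ?_⟩
        have h3 : B.w * t ^ 4 = 16 * B.w * u ^ 4 := by rw [hu']; ring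
        linarith
      exact (Int.even_pow.1 h1).1
    obtain ⟨n', hn'⟩ := hn
    have h' : B.x * s ^ 4 - 4 * B.y * s ^ 3 * u - 12 * B.c * s ^ 2 * u ^ 2 + 8 * B.z * s * u ^ 3 +
        4 * B.w * u ^ 4 = -n' ^ 2 + 8 * r := by
      rw [hu', hn'] at h
      have h4 : 4 * (B.x * s ^ 4 - 4 * B.y * s ^ 3 * u - 12 * B.c * s ^ 2 * u ^ 2 + 8 * B.z * s * u ^ 3 +
        4 * B.w * u ^ 4) = 4 * (-n' ^ 2 + 8 * r) := by linear_combination h
      exact mul_left_cancel₀ (by norm_num) h4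
    have key : B.x + 4 * ((B.y + B.c + B.w) * u) = -n' ^ 2 + 8 *
        (-(B.x * (8 * m ^ 2 + 2 * m) - B.y * u - B.y * u * k - 4 * B.y * u * s * m - 2 * B.c * u - 3 * B.c * e -
          12 * B.c * m * u ^ 2 + B.z * s * u ^ 3 + B.w * (e + 2 * u * e + 2 * e ^ 2)) + r) := by
      linear_combination h' + (-(B.x * (8 * m + 1 + s ^ 2)) + 4 * B.y * u * s + 12 * B.c * u ^ 2) * hm +
        4 * B.y * u * hk + (12 * B.c - 4 * B.w * (u ^ 2 + u + 2 * e + 1)) * he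
    rcases fin_case _ _ _ _ _ key with h1 | h1 | ⟨h1, h2⟩
    · exact Or.inl h1
    · exact Or.inr (Or.inr (Or.inl h1))
    · exact Or.inr (Or.inr (Or.inr (Or.inr (Or.inl ⟨h1, h2⟩))))
  · obtain ⟨m, hm⟩ := odd_sq t ht
    obtain ⟨k, hk⟩ := ht
    obtain ⟨e, he⟩ := sq_par s
    have key : B.w + 4 * ((B.x + B.c + B.z) * s) = -n ^ 2 + 8 *
        (-(B.x * (e + 2 * s * e + 2 * e ^ 2) - B.y * s ^ 3 * t - 2 * B.c * s - 3 * B.c * e -
          12 * B.c * m * s ^ 2 + B.z * s * k + 4 * B.z * s * t * m + B.w * (8 * m ^ 2 + 2 * m)) +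
            4 * r) := by
      linear_combination h + (-(B.w * (8 * m + 1 + t ^ 2)) - 4 * B.z * s * t + 12 * B.c * s ^ 2) * hm -
        4 * B.z * s * hk + (12 * B.c - 4 * B.x * (s ^ 2 + s + 2 * e + 1)) * he
    rcases fin_case _ _ _ _ _ key with h1 | h1 | ⟨h1, h2⟩
    · exact Or.inr (Or.inl h1)
    · exact Or.inr (Or.inr (Or.inr (Or.inl h1)))
    · exact Or.inr (Or.inr (Or.inr (Or.inr (Or.inr ⟨h1, h2⟩))))

theorem lift32 (z : ℤ_[2]) : ∃ m : ℤ, PadicInt.toZModPow 5 z = (m : ZMod (2 ^ 5)) := by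
  obtain ⟨m, hm⟩ := ZMod.intCast_surjective (PadicInt.toZModPow 5 z)
  exact ⟨m, hm.symm⟩

theorem sol_zp (B : Tup ℤ) (s t n : ℤ_[2]) (hst : s = 1 ∨ t = 1)
    (h : 4 * (B.x : ℤ_[2]) * s ^ 4 - 8 * (B.y : ℤ_[2]) * s ^ 3 * t -
      12 * (B.c : ℤ_[2]) * s ^ 2 * t ^ 2 + 4 * (B.z : ℤ_[2]) * s * t ^ 3 + (B.w : ℤ_[2]) * t ^ 4 =
        -n ^ 2) : Sol8 B := by
  obtain ⟨s', hs⟩ := lift32 s
  obtain ⟨t', ht⟩ := lift32 t
  obtain ⟨n', hn⟩ := lift32 n
  have h1 := congrArg (PadicInt.toZModPow 5) h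
  simp only [map_add, map_sub, map_mul, map_pow, map_neg, map_intCast, map_ofNat, hs, ht, hn] at h1
  have h2 : ((gh B s' t' + n' ^ 2 : ℤ) : ZMod (2 ^ 5)) = 0 := by
    unfold gh
    push_cast
    linear_combination h1
  rw [ZMod.intCast_zmod_eq_zero_iff_dvd] at h2
  obtain ⟨r, hr⟩ := h2
  have hodd : ∀ (z : ℤ_[2]) (m : ℤ), z = 1 → PadicInt.toZModPow 5 z = (m : ZMod (2 ^ 5)) →
      Odd m := by
    intro z m hz hm
    rw [hz, map_one] at hm
    have h3 : ((m - 1 : ℤ) : ZMod (2 ^ 5)) = 0 := by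
      push_cast
      rw [← hm]
      ring
    rw [ZMod.intCast_zmod_eq_zero_iff_dvd] at h3
    obtain ⟨k, hk⟩ := h3
    push_cast at hk
    exact ⟨16 * k, by omega⟩
  refine sl8_mod B s' t' n' r (hst.imp (fun h => hodd s s' h hs) (fun h => hodd t t' h ht)) ?_
  push_cast at hr
  linear_combination hr

/-- isotropic vectors over `ℚ_2` -/
theorem isotropic2 {v : Fin 3 → ℚ_[2]} (hv : v ≠ 0) (h : 2 * v 0 * v 2 + v 1 ^ 2 = 0) :
    ∃ (s t : ℤ_[2]) (l : ℚ_[2]), (s = 1 ∨ t = 1) ∧ l ≠ 0 ∧ v 0 = l * (-2 * (s : ℚ_[2]) ^ 2) ∧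
      v 1 = l * (2 * (s : ℚ_[2]) * (t : ℚ_[2])) ∧ v 2 = l * (t : ℚ_[2]) ^ 2 := by
  by_cases h2 : v 2 = 0
  · have h1 : v 1 = 0 := by
      rw [h2, mul_zero, zero_add] at h
      exact pow_eq_zero_iff (two_ne_zero) |>.1 h
    refine ⟨1, 0, -v 0 / 2, Or.inl rfl, ?_, ?_, ?_, ?_⟩
    · intro h0
      apply hv
      have h3 : v 0 = 0 := by
        have h4 : v 0 = -2 * (-v 0 / 2) := by ring
        rw [h4, h0, mul_zero]
      ext i
      fin_cases i
      · exact h3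
      · exact h1
      · exact h2
    · rw [PadicInt.coe_one]; ring
    · rw [h1, PadicInt.coe_zero]; ring
    · rw [h2, PadicInt.coe_zero]; ring
  · obtain ⟨u, hu⟩ : ∃ u, u = v 1 / (2 * v 2) := ⟨_, rfl⟩
    have e1 : v 1 = 2 * u * v 2 := by rw [hu]; field_simp
    have e0 : v 0 = -2 * u ^ 2 * v 2 := by
      have h3 : (2 * v 2) * (v 0 + 2 * u ^ 2 * v 2) = 0 := by
        rw [e1] at h
        linear_combination h
      rcases mul_eq_zero.1 h3 with h0 | h0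
      · exact absurd h0 (mul_ne_zero two_ne_zero h2)
      · linear_combination h0
    by_cases hn : ‖u‖ ≤ 1
    · refine ⟨⟨u, hn⟩, 1, v 2, Or.inr rfl, h2, ?_, ?_, ?_⟩
      · rw [e0]
        change -2 * u ^ 2 * v 2 = v 2 * (-2 * u ^ 2)
        ring
      · rw [e1, PadicInt.coe_one]
        change 2 * u * v 2 = v 2 * (2 * u * 1)
        ring
      · rw [PadicInt.coe_one]
        ring
    · push Not at hn
      have hu0 : u ≠ 0 := by
        rintro rfl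
        rw [norm_zero] at hn
        linarith
      have hi : ‖u⁻¹‖ ≤ 1 := by
        rw [norm_inv]
        exact inv_le_one_of_one_le₀ hn.le
      refine ⟨1, ⟨u⁻¹, hi⟩, v 2 * u ^ 2, Or.inl rfl, mul_ne_zero h2 (pow_ne_zero 2 hu0), ?_, ?_, ?_⟩
      · rw [e0, PadicInt.coe_one]
        ring
      · rw [e1, PadicInt.coe_one]
        change 2 * u * v 2 = v 2 * u ^ 2 * (2 * 1 * u⁻¹)
        field_simp
      · change v 2 = v 2 * u ^ 2 * u⁻¹ ^ 2
        field_simp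

/-- the two conditions -/
theorem sol_vec (B : Tup ℤ) {v : Fin 3 → ℚ_[2]} {ε : ℚ_[2]} (hv : v ≠ 0)
    (h2 : ∑ i, ∑ j, v i * v j * ((JJ i j : ℚ) : ℚ_[2]) = 0)
    (h1 : ∑ i, ∑ j, v i * v j * ((((mt B i j : ℤ) : ℚ)) : ℚ_[2]) = -ε ^ 2) : Sol8 B := by
  obtain ⟨s, t, l, hst, hl, e0, e1, e2⟩ := isotropic2 hv (by
    simp only [Fin.sum_univ_three, JJ, Matrix.of_apply, Matrix.cons_val_zero, Matrix.cons_val_one,
      Matrix.cons_val] at h2
    push_cast at h2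
    linear_combination h2)
  have g3 : l ^ 2 * (4 * (B.x : ℚ_[2]) * (s : ℚ_[2]) ^ 4 - 8 * (B.y : ℚ_[2]) * (s : ℚ_[2]) ^ 3 * t -
      12 * (B.c : ℚ_[2]) * (s : ℚ_[2]) ^ 2 * (t : ℚ_[2]) ^ 2 +
        4 * (B.z : ℚ_[2]) * s * (t : ℚ_[2]) ^ 3 + (B.w : ℚ_[2]) * (t : ℚ_[2]) ^ 4) = -ε ^ 2 := by
    rw [← h1]
    simp only [Fin.sum_univ_three, Pool.Agent.L0h45.AV.mt, Matrix.of_apply, Matrix.cons_val_zero,
      Matrix.cons_val_one, Matrix.cons_val]
    push_cast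
    rw [e0, e1, e2]
    ring
  have g4 : (4 * (B.x : ℚ_[2]) * (s : ℚ_[2]) ^ 4 - 8 * (B.y : ℚ_[2]) * (s : ℚ_[2]) ^ 3 * t -
      12 * (B.c : ℚ_[2]) * (s : ℚ_[2]) ^ 2 * (t : ℚ_[2]) ^ 2 +
        4 * (B.z : ℚ_[2]) * s * (t : ℚ_[2]) ^ 3 + (B.w : ℚ_[2]) * (t : ℚ_[2]) ^ 4) =
          -(ε / l) ^ 2 := by
    rw [div_pow, eq_neg_iff_add_eq_zero, ← mul_right_inj' (pow_ne_zero 2 hl), mul_zero, mul_add,
      g3, mul_div_cancel₀ _ (pow_ne_zero 2 hl)]
    ring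
  set Z : ℤ_[2] := 4 * (B.x : ℤ_[2]) * s ^ 4 - 8 * (B.y : ℤ_[2]) * s ^ 3 * t -
      12 * (B.c : ℤ_[2]) * s ^ 2 * t ^ 2 + 4 * (B.z : ℤ_[2]) * s * t ^ 3 + (B.w : ℤ_[2]) * t ^ 4
    with hZ
  have hZc : (Z : ℚ_[2]) = -(ε / l) ^ 2 := by
    rw [← g4]
    change PadicInt.Coe.ringHom Z = _
    rw [hZ]
    simp only [map_add, map_sub, map_mul, map_pow, map_intCast, map_ofNat]
    rfl
  have hn : ‖ε / l‖ ≤ 1 := by
    have h3 : ‖ε / l‖ ^ 2 ≤ 1 := by
      rw [← norm_pow, ← norm_neg, ← hZc]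
      exact PadicInt.norm_le_one Z
    exact (pow_le_one_iff_of_nonneg (norm_nonneg _) two_ne_zero).1 h3
  refine sol_zp B s t ⟨ε / l, hn⟩ hst ?_
  rw [← hZ]
  apply PadicInt.ext
  rw [hZc]
  push_cast
  rfl

/-! ### The cubic algebra over `ℚ_2` -/

/-- The coefficient of `ϑ ^ k`. -/
noncomputable def ck (a b : ℤ) (k : Fin 3) : AdjoinRoot (fp a b) →ₗ[ℚ_[2]] ℚ_[2] :=
  (bas a b).coord k

theorem ck_pow (a b : ℤ) (k i : Fin 3) :
    ck a b k (AdjoinRoot.root (fp a b) ^ (i : ℕ)) = if i = k then 1 else 0 := by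
  rw [← bas_apply]
  unfold ck
  rw [Module.Basis.coord_apply, Module.Basis.repr_self, Finsupp.single_apply]

section emb

variable {L : Type} [Field L] [CharZero L] {a b : ℤ} {θ : L}

theorem ck_sum (k : Fin 3) (v : Fin 3 → ℚ_[2]) :
    ck a b k (∑ i : Fin 3, v i • AdjoinRoot.root (fp a b) ^ (i : ℕ)) = v k := by
  rw [map_sum]
  simp only [map_smul, ck_pow, smul_eq_mul]
  simp

theorem emb_smul (h : IsCub a b θ) (c : ℚ) (x : L) :
    emb h (c • x) = (c : ℚ_[2]) • emb h x := by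
  rw [map_smul, Algebra.smul_def, Algebra.smul_def]
  congr 1

theorem emb_ck (h : IsCub a b θ) (k : Fin 3) (x : L) :
    ck a b k (emb h x) = ((h.co k x : ℚ) : ℚ_[2]) := by
  have e := h.basis.sum_repr x
  conv_lhs => rw [← e]
  rw [map_sum]
  have e2 : ∀ i : Fin 3, emb h (h.basis.repr x i • h.basis i) =
      ((h.basis.repr x i : ℚ) : ℚ_[2]) • AdjoinRoot.root (fp a b) ^ (i : ℕ) := by
    intro i
    rw [emb_smul, basis_pow, map_pow, emb_gen]
  simp only [e2]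
  rw [ck_sum]
  rfl

theorem exists_v (h : IsCub a b θ) {e : Fin 3 → L} (hli : LinearIndependent ℚ e)
    (g : AdjoinRoot (fp a b)) : ∃ v : Fin 3 → ℚ_[2], g = ∑ j, v j • emb h (e j) := by
  have hcard : Fintype.card (Fin 3) = Module.finrank ℚ L := by rw [h.rank]; rfl
  have hpow : ∀ i : Fin 3, ∃ c : Fin 3 → ℚ_[2],
      AdjoinRoot.root (fp a b) ^ (i : ℕ) = ∑ j, c j • emb h (e j) := by
    intro i
    have e1 := (basisOfLinearIndependentOfCardEqFinrank hli hcard).sum_repr (θ ^ (i : ℕ))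
    simp only [coe_basisOfLinearIndependentOfCardEqFinrank] at e1
    refine ⟨fun j => (((basisOfLinearIndependentOfCardEqFinrank hli hcard).repr
      (θ ^ (i : ℕ)) j : ℚ) : ℚ_[2]), ?_⟩
    rw [← emb_gen h, ← map_pow]
    conv_lhs => rw [← e1]
    rw [map_sum]
    exact Finset.sum_congr rfl fun j _ => emb_smul h _ _
  choose c hc using hpow
  refine ⟨fun j => ∑ i, (bas a b).repr g i * c i j, ?_⟩
  conv_lhs => rw [← (bas a b).sum_repr g]
  simp only [bas_apply, hc, Finset.smul_sum, Finset.sum_smul, smul_smul]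
  rw [Finset.sum_comm]

theorem form_eq (h : IsCub a b θ) [Fact (Irreducible (fp a b))] (e : Fin 3 → L) (α : L)
    (k : Fin 3) (v : Fin 3 → ℚ_[2]) :
    ck a b k ((∑ j, v j • emb h (e j)) * (∑ j, v j • emb h (e j)) / emb h α) =
      ∑ i, ∑ j, v i * v j * ((h.co k (e i * e j / α) : ℚ) : ℚ_[2]) := by
  rw [Finset.sum_mul_sum, Finset.sum_div, map_sum]
  refine Finset.sum_congr rfl fun i _ => ?_
  rw [Finset.sum_div, map_sum]
  refine Finset.sum_congr rfl fun j _ => ?_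
  have e3 : v i • emb h (e i) * v j • emb h (e j) / emb h α =
      (v i * v j) • emb h (e i * e j / α) := by
    rw [smul_mul_smul_comm, Algebra.smul_def, mul_div_assoc, ← Algebra.smul_def, map_div₀,
      map_mul (emb h)]
  rw [e3, map_smul, smul_eq_mul, emb_ck]

end emb

theorem nz_mod2 {a b : ℤ} (ha : Odd a) (hb : Odd b) (z : ℤ) : ¬ (2 : ℤ) ∣ z ^ 3 + a * z + b := by
  intro h
  obtain ⟨c, hc⟩ := h
  obtain ⟨k, rfl⟩ := ha
  obtain ⟨l, rfl⟩ := hb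
  rcases Int.even_or_odd z with ⟨m, rfl⟩ | ⟨m, rfl⟩
  · ring_nf at hc
    omega
  · ring_nf at hc
    omega

/-- **S8S** -/
theorem t_S8S : S_S8S := by
  intro L _ _ a b θ h α B ha hb hα hrel _ _ hloc
  have hz := nz_mod2 ha hb
  haveI : Fact (Irreducible (fp a b)) := ⟨fp_irr hz⟩
  obtain ⟨r, s, t, hrst⟩ := h.gen α
  have hp : aeval θ (C r + C s * X + C t * X ^ 2 : ℚ[X]) = α := by
    simp only [map_add, map_mul, map_pow, aeval_X, aeval_C, eq_ratCast]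
    exact hrst.symm
  have h1 := (pl2_iff _).1 (hloc _ hp)
  rw [emb_mk h, hp] at h1
  have hA0 : emb h α ≠ 0 := fun h0 => hα ((map_eq_zero (emb h)).1 h0)
  have c0 : ∀ k : Fin 3, k ≠ 0 → ck a b k 1 = 0 := by
    intro k hk
    have h2 := ck_pow a b k 0
    rw [if_neg hk.symm] at h2
    simpa using h2
  have cof : ∀ (k : Fin 3) (x : ℚ_[2]), k ≠ 0 → ck a b k (AdjoinRoot.of (fp a b) x) = 0 := by
    intro k x hk
    have e : AdjoinRoot.of (fp a b) x = x • (1 : AdjoinRoot (fp a b)) := by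
      rw [Algebra.smul_def, mul_one]
      rfl
    rw [e, map_smul, c0 k hk, smul_zero]
  have cr2 : ck a b 2 (AdjoinRoot.root (fp a b)) = 0 := by
    have h2 := ck_pow a b 2 1
    rw [if_neg (by decide)] at h2
    simpa using h2
  have cr1 : ck a b 1 (AdjoinRoot.root (fp a b)) = 1 := by
    have h2 := ck_pow a b 1 1
    rw [if_pos rfl] at h2
    simpa using h2
  have key : ∃ (g : AdjoinRoot (fp a b)) (ε : ℚ_[2]), g ≠ 0 ∧ ck a b 2 (g * g / emb h α) = 0 ∧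
      ck a b 1 (g * g / emb h α) = -ε ^ 2 := by
    rcases h1 with ⟨g, hg⟩ | ⟨x, y, hy, hxy, g, hg⟩
    · have hg0 : g ≠ 0 := by
        rintro rfl
        exact hA0 (by rw [hg]; ring)
      refine ⟨g, 0, hg0, ?_, ?_⟩
      · rw [hg, ← sq, div_self (pow_ne_zero 2 hg0), c0 2 (by decide)]
      · rw [hg, ← sq, div_self (pow_ne_zero 2 hg0), c0 1 (by decide)]
        ring
    · have hx0 : AdjoinRoot.of (fp a b) x - AdjoinRoot.root (fp a b) ≠ 0 := by
        intro h0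
        have hr := root_eq (a := a) (b := b)
        rw [← sub_eq_zero.1 h0, ← map_pow, ← map_mul, ← map_add, ← map_add, map_eq_zero] at hr
        exact noroot hz x hr
      have hg0 : g ≠ 0 := by
        rintro rfl
        exact mul_ne_zero hx0 hA0 (by rw [hg]; ring)
      refine ⟨g, 1, hg0, ?_, ?_⟩
      · rw [← sq, ← hg, mul_div_assoc, div_self hA0, mul_one, map_sub, cof 2 x (by decide), cr2,
          sub_zero]
      · rw [← sq, ← hg, mul_div_assoc, div_self hA0, mul_one, map_sub, cof 1 x (by decide), cr1]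
        ring
  obtain ⟨g, ε, hg0, hg2, hg1⟩ := key
  obtain ⟨e, hli, h2, h3⟩ := hrel
  obtain ⟨v, rfl⟩ := exists_v h hli g
  rw [form_eq h e α] at hg2 hg1
  simp only [h2] at hg2
  simp only [h3] at hg1
  refine sol_vec B (v := v) (ε := ε) ?_ hg2 hg1
  rintro rfl
  apply hg0
  simp

end Pool.Agent.L0h55.AV
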