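import Pool.Agent.L0h45.AV.Stm3
import Pool.Agent.L0h55.AV.RNK

/-!
# Project AV, module RNKn: the rank and the tuples, any sign of `a`
-/

set_option autoImplicit false
set_option linter.all false

open Finset IsDedekindDomain NumberField Polynomial
open scoped Classical

namespace Pool.Agent.L0h55.AV

open Pool.Agent.N874.PP (Tup chA chB gq tau Ev)
open Pool.Agent.N922.PQ (dsc IsCub vec)
open Pool.Agent.L0h45.AR (crv cub Alg th)
open Pool.Agent.L0h45.AV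

/-- **RNKn** -/
theorem t_RNKn : S_RDXn → S_EVP → S_REXn → S_RLM → S_RLI → S_RLC → S_SQN → S_SL8 → S_RNKn := by
  intro hRDX hEVP hREX hRLM hRLI hRLC hSQN hSL8 a b ha hao hsq
  have hbo := odd_b hao hsq
  have hΔ : 4 * a ^ 3 + 27 * b ^ 2 ≠ 0 := hsq.ne_zero
  obtain ⟨L, iF, iN, θ, hc, φ, hφ, hφq⟩ := exists_cub (cub_irr hao hbo)
  have hFG : AddGroup.FG (crv a b).toAffine.Point := by
    apply Pool.Agent.Q286.EQ.mordell_weil ℚ (crv a b)
    intro h
    apply hΔ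
    have h1 : (crv a b).Δ = -16 * ((4 * a ^ 3 + 27 * b ^ 2 : ℤ) : ℚ) := by
      simp only [crv, WeierstrassCurve.Δ, WeierstrassCurve.b₂, WeierstrassCurve.b₄,
        WeierstrassCurve.b₆, WeierstrassCurve.b₈]
      push_cast
      ring
    rw [h1] at h
    have h2 : ((4 * a ^ 3 + 27 * b ^ 2 : ℤ) : ℚ) = 0 := by linarith
    exact_mod_cast h2
  obtain ⟨S₀, hS₀, hinc⟩ := Pool.Agent.L0h95.AR.mw (crv a b).toAffine.Point hFG
  -- the points which are doubles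
  have hdb : (S₀.filter (fun P => ∃ Q, Q + Q = P)).card ≤ 1 := by
    rw [card_le_one]
    intro P hP P' hP'
    rw [mem_filter] at hP hP'
    obtain ⟨hP1, Q, hQ⟩ := hP
    obtain ⟨hP1', Q', hQ'⟩ := hP'
    by_contra hne
    apply hinc P hP1 P' hP1' hne (Q - Q')
    rw [← hQ, ← hQ']
    abel
  obtain ⟨S₁, hS₁⟩ : ∃ S₁, S₁ = S₀.filter (fun P => ¬ (∃ Q, Q + Q = P)) := ⟨_, rfl⟩
  have hS₁c : S₀.card ≤ S₁.card + 1 := by
    have h1 := card_filter_add_card_filter_not (s := S₀) (fun P => ∃ Q, Q + Q = P)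
    rw [← hS₁] at h1
    omega
  -- squares
  have hsqr : ∀ z : L, IsSquare z → IsSquare (φ z) := fun z hz => hz.map φ
  -- the tuples
  have hform : ∀ P ∈ S₁, ∃ B : Tup ℤ, ∃ (x y : ℚ) (h : (crv a b).toAffine.Nonsingular x y),
      P = .some x y h ∧ y ≠ 0 ∧ ((x : L) - θ) ≠ 0 ∧ Rel hc ((x : L) - θ) B ∧ Red B ∧ Sol8 B ∧
        B.x ≠ 0 ∧ chA B = a ∧ chB B = b := by
    intro P hP
    rw [hS₁, mem_filter] at hP
    obtain ⟨-, h2⟩ := hP
    rcases P with _ | ⟨x, y, h⟩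
    · exact absurd ⟨0, add_zero 0⟩ h2
    · have he := crv_eq h
      have hy : y ≠ 0 := by
        rintro rfl
        apply no_root hao hbo x
        rw [← he]
        norm_num
      have hN : Algebra.norm ℚ ((x : L) - θ) = y ^ 2 := by rw [norm_sub hc, he]
      have hα : ((x : L) - θ) ≠ 0 := by
        intro h0
        rw [h0, Algebra.norm_zero] at hN
        exact hy (pow_eq_zero_iff (two_ne_zero) |>.1 hN.symm)
      have hNs : IsSquare (Algebra.norm ℚ ((x : L) - θ)) := ⟨y, by rw [hN, sq]⟩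
      have hns : ¬ IsSquare ((x : L) - θ) := by
        intro hs
        have h3 := hsqr _ hs
        rw [map_sub, hφ, hφq] at h3
        obtain ⟨Q, hQ⟩ := Pool.Agent.L0h90.AR.half a b hΔ x y h h3
        exact h2 ⟨Q, hQ⟩
      obtain ⟨B₀, hB₀⟩ := hREX L (𝓞 L) a b θ hc ha hsq ((x : L) - θ) hα hNs
        (fun 𝔓 => hEVP L (𝓞 L) a b θ hc hsq x y he 𝔓)
      obtain ⟨B, hB, hred⟩ := hRDX (fun B => Rel hc ((x : L) - θ) B)
        (fun B hB => hRLM L a b θ hc _ B hB) (fun B hB => by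
          obtain ⟨h3, h4, h5⟩ := hRLC L a b θ hc _ B hα hB
          exact ⟨h5 hNs hns, by rw [h3, h4]; exact ha⟩) B₀ hB₀
      obtain ⟨h3, h4, h5⟩ := hRLC L a b θ hc _ B hα hB
      obtain ⟨s, t, n, hst, hg⟩ := hSQN L a b θ hc x B hB
      exact ⟨B, x, y, h, rfl, hy, hα, hB, hred, hSL8 B s t n (by rw [h3]; exact hao)
        (by rw [h4]; exact hbo) hst hg, h5 hNs hns, h3, h4⟩
  haveI : Nonempty (Tup ℤ) := ⟨⟨0, 0, 0, 0, 0⟩⟩
  choose! Fm hFm using hform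
  have hkey : ∀ P ∈ S₁, ∀ P' ∈ S₁, Fm P = Fm P' → P = P' := by
    intro P hP P' hP' he
    obtain ⟨x, y, h, rfl, hy, hα, hR, -, -, -, -, -⟩ := hFm P hP
    obtain ⟨x', y', h', rfl, hy', hα', hR', -, -, -, -, -⟩ := hFm P' hP'
    rw [← he] at hR'
    by_contra hne
    have h1 := hsqr _ (hRLI L a b θ hc _ _ _ hα hα' hR hR')
    rw [map_mul, map_sub, map_sub, hφ, hφq, hφq] at h1
    obtain ⟨Q, hQ⟩ := Pool.Agent.L0h90.AR.pair a b hΔ x y x' y' h h' hy hy' h1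
    rw [hS₁, mem_filter] at hP hP'
    exact hinc _ hP.1 _ hP'.1 hne Q hQ
  refine ⟨S₁.image Fm, ?_, ?_⟩
  · rw [card_image_of_injOn, ← hS₀]
    · exact hS₁c
    · intro P hP P' hP' h
      rw [mem_coe] at hP hP'
      exact hkey P hP P' hP' h
  · intro B hB
    rw [mem_image] at hB
    obtain ⟨P, hP, rfl⟩ := hB
    obtain ⟨x, y, h, -, hy, hα, hR, hred, hsol, hx, hA, hB'⟩ := hFm P hP
    exact ⟨hx, hA, hB', hred, hsol⟩

end Pool.Agent.L0h55.AV
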